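import Pool.Agent.Q173.GZ.Fin

/-!
# The ring of automorphic forms on the stack of `G`-zips is finitely generated

Let `(G, μ)` be a cocharacter datum, `P = P_-(μ)`, `Q = P_+(μ)^{(p)}`, `E` the zip group, `(B, T)` a
Borel pair with `B ≤ P`, `T ≤ L`. The ring `R_zip = ⊕_λ H^0([E \ G], V_I(λ))`, `V_I(λ) = ind_B^P(λ)`,
is a finitely generated `k`-algebra, for every datum.

Proof (in Lean): evaluation at `x = 1` identifies `R_zip` with the algebra of the regular functions on
`G` which are invariant under the pairs `(x, y) ∈ E` with `x ∈ R_u(B)`. This group is generated by
`R_u(P) × R_u(Q)`, the unipotent radical of a parabolic subgroup of `G × G`, and by the graph of the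
Frobenius over `R_u(B ∩ L)`, the unipotent radical of a Borel subgroup of `L`. So the algebra is
obtained from `k[G]` by taking twice the invariants of the unipotent radical of a parabolic subgroup of
a connected reductive group (`G × G`, then `L`), and the theorem of Hadžiev and Grosshans applies twice.

Algebraic groups are in the classical language: groups with an algebra of regular functions, over an
algebraically closed field. The textbook theorems used as hypotheses: `ProductTheorem` (products of
connected reductive groups are connected reductive), `LeviTheorem` (centralizers of cocharacters are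
connected reductive), `BorelTheorem` (a Borel pair is of the form `(P_+(ν), Cent(ν))`, and
`R_u(P) ≤ R_u(B)` for `B ≤ P`), `GrosshansTheorem` (finite generation of the invariants of unipotent
radicals of parabolic subgroups of connected reductive groups).
-/

set_option autoImplicit false

namespace Pool.Agent.Results.MP_5c492e_ag.FinitelyGenerated

open Pool.Agent.Q173.GZ

/-- **Finite generation of `R_zip`.** `D` is a cocharacter datum `(G, μ)` with a Borel pair, over an
algebraically closed field (in the question: of characteristic `p`, with `D.phi` the Frobenius of an
`𝔽_p`-structure and `D.mu' = μ^{(p)}`; more generally any endomorphism with `φ(μ(t)) = μ'(t^p)`). -/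
theorem result {k : Type} [Field k] [IsAlgClosed k] {p : ℕ} (hp : p.Prime)
    (hPr : ProductTheorem k) (hLe : LeviTheorem k) (hBo : BorelTheorem k)
    (hGr : GrosshansTheorem k) (D : ZipDatum k p) : D.Rzip.FG :=
  D.main hp.pos hPr hLe hBo hGr

end Pool.Agent.Results.MP_5c492e_ag.FinitelyGenerated
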